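import Pool.Agent.Zk5.JD.Cnt

set_option autoImplicit false

/-!
# The number of non-real zeros of the derivatives of `FF`: final forms
-/

namespace Pool.Agent.Zk5.JD

open Complex Filter Topology MeasureTheory Set
open Pool.Agent.H24R2.JP (XX FF Par Good)
open Pool.Agent.H24R2.DZ
open Pool.Agent.Zk17.J

/-- norm and height of a zero -/
theorem norm_tau {n : ℕ} {x : ℂ} (h : iteratedDeriv n FF x = 0) (h1 : 1 ≤ ‖x‖) :
    x.re ≤ 0 ∧ ‖x‖ ≤ tau x ^ 2 + 1 / 2 ∧ tau x ^ 2 ≤ ‖x‖ := by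
  have hp := par_of h
  have hre : x.re ≤ 0 := by
    by_contra hcon
    push Not at hcon
    have h2 : ‖x‖ ^ 2 = x.re ^ 2 + x.im ^ 2 := by
      rw [Complex.sq_norm, Complex.normSq_apply]; ring
    nlinarith [sq_nonneg x.im]
  have hτ : tau x ^ 2 = -x.re := by
    unfold tau
    rw [Real.sq_sqrt (by linarith)]
  refine ⟨hre, ?_, ?_⟩
  · rw [hτ]
    apply le_of_sq_le_sq _ (by linarith)
    have h2 : ‖x‖ ^ 2 = x.re ^ 2 + x.im ^ 2 := by
      rw [Complex.sq_norm, Complex.normSq_apply]; ring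
    rw [h2]
    nlinarith
  · rw [hτ]
    have := Complex.abs_re_le_norm x
    have := neg_abs_le x.re
    linarith

/-- core -/
theorem core (hLM : S_LMF) (κ c : ℝ) (hκ0 : 0 < κ) (hκ4 : κ < 4) (hc : 0 < c) :
    ∃ (C : ℝ) (N : ℕ), 0 < C ∧ ∀ (n : ℕ) (T : ℝ), N ≤ n → 1 ≤ T → c * Real.log T ≤ n →
    ∀ S : Finset ℂ, (∀ x ∈ S, iteratedDeriv n FF x = 0 ∧ x.im ≠ 0 ∧ ‖x‖ ≤ T ^ 2) →
    ∃ K : ℕ, (K : ℝ) ≤ 3 * Real.log (T + 2) ∧
    (∀ w : ℂ → ℝ, (∀ x, 0 ≤ w x) → ∑ x ∈ S, w x ≤ ∑ k ∈ Finset.range K,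
      ∑ x ∈ S.filter (fun x => T / 2 ^ (k + 1) < tau x ∧ tau x ≤ T / 2 ^ k), w x) ∧
    (∀ x ∈ S, tau x ^ 2 ≤ ‖x‖) ∧
    ∀ k : ℕ, ∑ x ∈ S.filter (fun x => T / 2 ^ (k + 1) < tau x ∧ tau x ≤ T / 2 ^ k), wf n x ≤
      C * (T / 2 ^ (k + 1)) * Real.exp (-(κ * n)) * Real.log (T + 2) := by
  classical
  obtain ⟨C1, T1, hC1, hT1, hsb⟩ := sbf hLM κ c hκ0 hκ4 hc
  obtain ⟨κ2, hκ2⟩ : ∃ κ2 : ℝ, κ2 = (κ + 4) / 2 := ⟨_, rfl⟩
  obtain ⟨N1, hN1⟩ := upZ (1 / 2) (2 * κ2) (by norm_num) le_rfl Pool.Agent.H986R2.K4.a1 (by linarith)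
  obtain ⟨T0, hT0⟩ : ∃ T0 : ℝ, T0 = max T1 3 := ⟨_, rfl⟩
  have hT0T1 : T1 ≤ T0 := by rw [hT0]; exact le_max_left _ _
  have hT03 : 3 ≤ T0 := by rw [hT0]; exact le_max_right _ _
  refine ⟨C1, max N1 ⌈4 * T0 ^ 2 + 1⌉₊, hC1, ?_⟩
  intro n T hn hT hcn S hS
  have hnN1 : N1 ≤ n := (le_max_left _ _).trans hn
  have hnT0 : 4 * T0 ^ 2 + 1 ≤ n := Nat.ceil_le.1 ((le_max_right _ _).trans hn)
  have hexp : 4 * T0 ^ 2 + 1 ≤ Real.exp (2 * κ2 * n) := by
    have h1 := Real.add_one_le_exp (2 * κ2 * n)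
    have h2 : (n : ℝ) ≤ 2 * κ2 * n := by
      have : (0 : ℝ) ≤ n := Nat.cast_nonneg n
      nlinarith
    linarith
  -- basic facts about the zeros
  have hbig : ∀ x ∈ S, Real.exp (2 * κ2 * n) < ‖x‖ := by
    intro x hx
    by_contra hcon
    push Not at hcon
    exact (hS x hx).2.1 (hN1 n hnN1 x hcon (hS x hx).1)
  have hfac : ∀ x ∈ S, x.re ≤ 0 ∧ ‖x‖ ≤ tau x ^ 2 + 1 / 2 ∧ tau x ^ 2 ≤ ‖x‖ := by
    intro x hx
    refine norm_tau (hS x hx).1 ?_
    have := hbig x hx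
    nlinarith
  have hτ0 : ∀ x : ℂ, 0 ≤ tau x := fun x => Real.sqrt_nonneg _
  have hτ1 : ∀ x ∈ S, 2 * T0 < tau x := by
    intro x hx
    have h1 := hbig x hx
    have h2 := (hfac x hx).2.1
    apply lt_of_pow_lt_pow_left₀ 2 (hτ0 x)
    nlinarith
  have hτ2 : ∀ x ∈ S, tau x ≤ T := by
    intro x hx
    have h1 := (hS x hx).2.2
    have h2 := (hfac x hx).2.2
    exact le_of_sq_le_sq (h2.trans h1) (by linarith)
  have hlog2 : 0 < Real.log 2 := Real.log_pos (by norm_num)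
  have hlogT : 0 ≤ Real.log T := Real.log_nonneg hT
  have hlogT2 : Real.log T ≤ Real.log (T + 2) := Real.log_le_log (by linarith) (by linarith)
  have hlog3 : 1 ≤ Real.log (T + 2) := by
    have h3 : (1 : ℝ) ≤ Real.log 3 := by
      rw [Real.le_log_iff_exp_le (by norm_num)]
      have := Real.exp_one_lt_d9
      linarith
    exact h3.trans (Real.log_le_log (by norm_num) (by linarith))
  refine ⟨⌈Real.log T / Real.log 2⌉₊, ?_, ?_, ?_, ?_⟩
  · have h1 := Nat.ceil_lt_add_one (a := Real.log T / Real.log 2) (by positivity)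
    have h2 : Real.log T / Real.log 2 ≤ 2 * Real.log T := by
      rw [div_le_iff₀ hlog2]
      have := Real.log_two_gt_d9
      nlinarith
    linarith
  · intro w hw
    refine dyad hw _ (T0 := T0) ?_ S (fun x hx => ⟨by linarith [hτ1 x hx], hτ2 x hx⟩)
    have h1 := Nat.le_ceil (Real.log T / Real.log 2)
    have h2 : T ≤ 2 ^ ⌈Real.log T / Real.log 2⌉₊ := by
      rw [div_le_iff₀ hlog2] at h1
      calc T = Real.exp (Real.log T) := (Real.exp_log (by linarith)).symm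
        _ ≤ Real.exp ((⌈Real.log T / Real.log 2⌉₊ : ℝ) * Real.log 2) := Real.exp_le_exp.2 h1
        _ = _ := by rw [Real.exp_nat_mul, Real.exp_log (by norm_num)]
    rw [div_le_iff₀ (by positivity)]
    have h3 : (0 : ℝ) < 2 ^ ⌈Real.log T / Real.log 2⌉₊ := by positivity
    nlinarith
  · exact fun x hx => (hfac x hx).2.2
  · intro k
    rcases Finset.eq_empty_or_nonempty (S.filter (fun x => T / 2 ^ (k + 1) < tau x ∧ tau x ≤ T / 2 ^ k)) with he | ⟨x, hx⟩
    · rw [he, Finset.sum_empty]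
      have : 0 ≤ T / 2 ^ (k + 1) := by positivity
      positivity
    · obtain ⟨T', hT'⟩ : ∃ T' : ℝ, T' = T / 2 ^ (k + 1) := ⟨_, rfl⟩
      have h2T' : T / 2 ^ k = 2 * T' := by
        rw [hT', pow_succ]; field_simp
      rw [h2T', ← hT'] at hx ⊢
      rw [Finset.mem_filter] at hx
      have h1 := hτ1 x hx.1
      have hT'0 : T0 < T' := by linarith [hx.2.2]
      have hT'T : T' ≤ T := by
        rw [hT']
        apply div_le_self (by linarith)
        exact one_le_pow₀ (by norm_num)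
      have hlogT' : Real.log T' ≤ Real.log T := Real.log_le_log (by linarith) hT'T
      have hn1 : c * Real.log T' ≤ n := (mul_le_mul_of_nonneg_left hlogT' hc.le).trans hcn
      have hn2 : (n : ℝ) ≤ Real.log T' := by
        have h2 := hbig x hx.1
        have h3 := (hfac x hx.1).2.1
        have h4 : Real.exp (2 * κ2 * n) ≤ (3 * T') ^ 2 := by
          have h5 : tau x ^ 2 ≤ (2 * T') ^ 2 := by
            have := hτ0 x
            nlinarith [hx.2.2]
          nlinarith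
        have h6 : 2 * κ2 * n ≤ 2 * Real.log (3 * T') := by
          have h7 := Real.log_le_log (Real.exp_pos _) h4
          rw [Real.log_exp, Real.log_pow] at h7
          exact_mod_cast h7
        rw [Real.log_mul (by norm_num) (by linarith)] at h6
        have h8 : Real.log 3 ≤ Real.log T' := Real.log_le_log (by norm_num) (by linarith)
        have : (0 : ℝ) ≤ n := Nat.cast_nonneg n
        nlinarith
      have h5 := hsb T' n (hT0T1.trans hT'0.le) hn1 hn2
        (S.filter (fun x => T' < tau x ∧ tau x ≤ 2 * T')) (by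
          intro y hy
          rw [Finset.mem_filter] at hy
          exact ⟨⟨(hS y hy.1).1, (hS y hy.1).2.1⟩, hy.2⟩)
      refine h5.trans ?_
      have h6 : 0 ≤ C1 * T' * Real.exp (-(κ * n)) := by
        have : 0 < T' := by linarith
        positivity
      exact mul_le_mul_of_nonneg_left (hlogT'.trans hlogT2) h6

/-- small `n` -/
theorem small (κ c : ℝ) (hκ0 : 0 < κ) (hc : 0 < c) (N : ℕ) : ∃ C : ℝ, 0 < C ∧
    ∀ (n : ℕ) (T : ℝ), n < N → 1 ≤ T → c * Real.log T ≤ n →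
    ∀ S : Finset ℂ, (∀ x ∈ S, iteratedDeriv n FF x = 0 ∧ x.im ≠ 0 ∧ ‖x‖ ≤ T ^ 2) →
    ∑ x ∈ S, wf n x ≤ C * Real.exp (-(κ * n)) ∧ ∑ x ∈ S, wf n x / √‖x‖ ≤ C * Real.exp (-(κ * n)) := by
  classical
  have hone : ∀ n : ℕ, ∃ M : ℝ, 0 ≤ M ∧ (n < N → ∀ (T : ℝ), 1 ≤ T → c * Real.log T ≤ n →
      ∀ S : Finset ℂ, (∀ x ∈ S, iteratedDeriv n FF x = 0 ∧ x.im ≠ 0 ∧ ‖x‖ ≤ T ^ 2) →
      ∑ x ∈ S, wf n x ≤ M ∧ ∑ x ∈ S, wf n x / √‖x‖ ≤ M) := by
    intro n
    obtain ⟨M, hM0, hM⟩ := disc n (Real.exp (2 * (N / c))) (Real.one_le_exp (by positivity))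
    have hd : Differentiable ℂ (iteratedDeriv n FF) := iter_diff' FF_diff n
    have h0 : iteratedDeriv n FF 0 ≠ 0 := Pool.Agent.H24R2.JP.goodT.2.2 n
    obtain ⟨ε, hε, hεz⟩ := Metric.eventually_nhds_iff.1 (hd.continuous.continuousAt.eventually_ne h0)
    refine ⟨M + M / √ε, by positivity, ?_⟩
    intro hn T hT hcn S hS
    have hTR : T ^ 2 ≤ Real.exp (2 * (N / c)) := by
      have h1 : Real.log T ≤ N / c := by
        rw [le_div_iff₀ hc]
        have : (n : ℝ) ≤ N := by exact_mod_cast hn.le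
        linarith
      calc T ^ 2 = Real.exp (2 * Real.log T) := by
            rw [two_mul, Real.exp_add, Real.exp_log (by linarith)]; ring
        _ ≤ _ := Real.exp_le_exp.2 (by linarith)
    have h2 := hM S (fun x hx => (hS x hx).2.2.trans hTR)
    have hq : 0 ≤ M / √ε := by positivity
    refine ⟨by linarith, ?_⟩
    have h3 : ∀ x ∈ S, wf n x / √‖x‖ ≤ wf n x / √ε := by
      intro x hx
      have h4 : ε ≤ ‖x‖ := by
        by_contra hcon
        push Not at hcon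
        exact hεz (y := x) (by rw [dist_zero_right]; exact hcon) (hS x hx).1
      have h5 : √ε ≤ √‖x‖ := Real.sqrt_le_sqrt h4
      have h6 : 0 < √ε := Real.sqrt_pos.2 hε
      have := wf_nonneg n x
      gcongr
    calc ∑ x ∈ S, wf n x / √‖x‖ ≤ ∑ x ∈ S, wf n x / √ε := Finset.sum_le_sum h3
      _ = (∑ x ∈ S, wf n x) / √ε := by rw [Finset.sum_div]
      _ ≤ M / √ε := by gcongr
      _ ≤ _ := by linarith
  choose M hM0 hM using hone
  refine ⟨(∑ n ∈ Finset.range N, M n) * Real.exp (κ * N) + 1, ?_, ?_⟩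
  · have : 0 ≤ ∑ n ∈ Finset.range N, M n := Finset.sum_nonneg fun n _ => hM0 n
    positivity
  · intro n T hn hT hcn S hS
    obtain ⟨h1, h2⟩ := hM n hn T hT hcn S hS
    have h3 : M n ≤ ∑ n ∈ Finset.range N, M n :=
      Finset.single_le_sum (f := M) (fun i _ => hM0 i) (Finset.mem_range.2 hn)
    have h4 : M n ≤ ((∑ n ∈ Finset.range N, M n) * Real.exp (κ * N) + 1) * Real.exp (-(κ * n)) := by
      have h5 : 1 ≤ Real.exp (κ * N) * Real.exp (-(κ * n)) := by
        rw [← Real.exp_add]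
        apply Real.one_le_exp
        have : (n : ℝ) ≤ N := by exact_mod_cast hn.le
        nlinarith
      have h6 := Real.exp_pos (-(κ * n))
      have h7 := hM0 n
      calc M n ≤ (∑ n ∈ Finset.range N, M n) * 1 := by linarith
        _ ≤ (∑ n ∈ Finset.range N, M n) * (Real.exp (κ * N) * Real.exp (-(κ * n))) := by
          apply mul_le_mul_of_nonneg_left h5 (by linarith)
        _ ≤ _ := by nlinarith
    exact ⟨h1.trans h4, h2.trans h4⟩

/-- log bound -/
theorem one_le_log {T : ℝ} (hT : 1 ≤ T) : 1 ≤ Real.log (T + 2) := by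
  have h3 : (1 : ℝ) ≤ Real.log 3 := by
    rw [Real.le_log_iff_exp_le (by norm_num)]
    have := Real.exp_one_lt_d9
    linarith
  exact h3.trans (Real.log_le_log (by norm_num) (by linarith))

theorem scnt0 (hLM : S_LMF) (κ c : ℝ) (hκ0 : 0 < κ) (hκ4 : κ < 4) (hc : 0 < c) : ∃ C : ℝ, 0 < C ∧
    ∀ (n : ℕ) (T : ℝ), 1 ≤ T → c * Real.log T ≤ n → ∀ S : Finset ℂ,
    (∀ x ∈ S, iteratedDeriv n FF x = 0 ∧ x.im ≠ 0 ∧ ‖x‖ ≤ T ^ 2) →
    ∑ x ∈ S, wf n x ≤ C * T * Real.log (T + 2) * Real.exp (-(κ * n)) ∧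
    ∑ x ∈ S, wf n x / √‖x‖ ≤ C * (Real.log (T + 2)) ^ 2 * Real.exp (-(κ * n)) := by
  classical
  obtain ⟨C1, N, hC1, hcore⟩ := core hLM κ c hκ0 hκ4 hc
  obtain ⟨C2, hC2, hsmall⟩ := small κ c hκ0 hc N
  refine ⟨3 * C1 + C2, by positivity, ?_⟩
  intro n T hT hcn S hS
  have hlog := one_le_log hT
  obtain ⟨E, hE⟩ : ∃ E : ℝ, E = Real.exp (-(κ * n)) := ⟨_, rfl⟩
  have hE0 : 0 < E := by rw [hE]; exact Real.exp_pos _
  obtain ⟨L, hL⟩ : ∃ L : ℝ, L = Real.log (T + 2) := ⟨_, rfl⟩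
  rw [← hL] at hlog
  rcases lt_or_ge n N with hn | hn
  · obtain ⟨h1, h2⟩ := hsmall n T hn hT hcn S hS
    rw [← hE, ← hL]
    rw [← hE] at h1 h2
    constructor
    · refine h1.trans ?_
      have h3 : 1 ≤ T * L := by nlinarith
      have h4 : 0 ≤ 3 * C1 * (T * L) * E := by positivity
      have h5 : C2 * E ≤ C2 * (T * L) * E := by
        apply mul_le_mul_of_nonneg_right _ hE0.le
        exact le_mul_of_one_le_right hC2.le h3
      calc C2 * E ≤ C2 * (T * L) * E := h5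
        _ ≤ C2 * (T * L) * E + 3 * C1 * (T * L) * E := by linarith
        _ = _ := by ring
    · refine h2.trans ?_
      have h3 : 1 ≤ L ^ 2 := by nlinarith
      have h4 : 0 ≤ 3 * C1 * L ^ 2 * E := by positivity
      have h5 : C2 * E ≤ C2 * L ^ 2 * E := by
        apply mul_le_mul_of_nonneg_right _ hE0.le
        exact le_mul_of_one_le_right hC2.le h3
      calc C2 * E ≤ C2 * L ^ 2 * E := h5
        _ ≤ C2 * L ^ 2 * E + 3 * C1 * L ^ 2 * E := by linarith
        _ = _ := by ring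
  · obtain ⟨K, hK, hdec, hnt, hwin⟩ := hcore n T hn hT hcn S hS
    rw [← hL] at hK hwin ⊢
    rw [← hE] at hwin ⊢
    constructor
    · refine (hdec _ (wf_nonneg n)).trans ((Finset.sum_le_sum fun k _ => hwin k).trans ?_)
      have h1 : ∑ k ∈ Finset.range K, C1 * (T / 2 ^ (k + 1)) * E * L =
          C1 * T * E * L * ∑ k ∈ Finset.range K, (1 / 2 : ℝ) ^ (k + 1) := by
        rw [Finset.mul_sum]
        refine Finset.sum_congr rfl fun k _ => ?_
        rw [one_div, inv_pow]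
        ring
      have h2 : ∑ k ∈ Finset.range K, (1 / 2 : ℝ) ^ (k + 1) ≤ 1 := by
        have h3 : ∑ k ∈ Finset.range K, (1 / 2 : ℝ) ^ (k + 1) = (∑ k ∈ Finset.range K, (1 / 2 : ℝ) ^ k) / 2 := by
          rw [Finset.sum_div]
          refine Finset.sum_congr rfl fun k _ => ?_
          rw [pow_succ]; ring
        rw [h3]
        have h4 : ∑ k ∈ Finset.range K, (1 / 2 : ℝ) ^ k ≤ 2 := by
          rw [geom_sum_eq (by norm_num)]
          have : (0 : ℝ) ≤ (1 / 2) ^ K := by positivity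
          rw [div_le_iff_of_neg (by norm_num)]
          linarith
        linarith
      rw [h1]
      have h3 : 0 ≤ C1 * T * E * L := by positivity
      have h4 : 0 ≤ C2 * T * L * E := by positivity
      calc C1 * T * E * L * ∑ k ∈ Finset.range K, (1 / 2 : ℝ) ^ (k + 1) ≤ C1 * T * E * L * 1 :=
            mul_le_mul_of_nonneg_left h2 h3
        _ ≤ (3 * C1 + C2) * T * L * E := by nlinarith
    · refine (hdec (fun x => wf n x / √‖x‖) (fun x => div_nonneg (wf_nonneg n x) (Real.sqrt_nonneg _))).trans ?_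
      have h1 : ∀ k ∈ Finset.range K,
          ∑ x ∈ S.filter (fun x => T / 2 ^ (k + 1) < tau x ∧ tau x ≤ T / 2 ^ k), wf n x / √‖x‖ ≤
          C1 * E * L := by
        intro k _
        have hT0 : 0 < T / 2 ^ (k + 1) := by positivity
        calc ∑ x ∈ S.filter (fun x => T / 2 ^ (k + 1) < tau x ∧ tau x ≤ T / 2 ^ k), wf n x / √‖x‖
            ≤ ∑ x ∈ S.filter (fun x => T / 2 ^ (k + 1) < tau x ∧ tau x ≤ T / 2 ^ k), wf n x / (T / 2 ^ (k + 1)) := by
              refine Finset.sum_le_sum fun x hx => ?_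
              rw [Finset.mem_filter] at hx
              have h2 : T / 2 ^ (k + 1) ≤ √‖x‖ :=
                hx.2.1.le.trans (Real.le_sqrt_of_sq_le (hnt x hx.1))
              exact div_le_div_of_nonneg_left (wf_nonneg n x) hT0 h2
          _ = (∑ x ∈ S.filter (fun x => T / 2 ^ (k + 1) < tau x ∧ tau x ≤ T / 2 ^ k), wf n x) / (T / 2 ^ (k + 1)) := by
              rw [Finset.sum_div]
          _ ≤ (C1 * (T / 2 ^ (k + 1)) * E * L) / (T / 2 ^ (k + 1)) := by
              gcongr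
              exact hwin k
          _ = C1 * E * L := by field_simp
      refine (Finset.sum_le_sum h1).trans ?_
      rw [Finset.sum_const, nsmul_eq_mul, Finset.card_range]
      have h3 : 0 ≤ C1 * E * L := by positivity
      have h4 : 0 ≤ C2 * L ^ 2 * E := by positivity
      calc (K : ℝ) * (C1 * E * L) ≤ (3 * L) * (C1 * E * L) := mul_le_mul_of_nonneg_right hK h3
        _ ≤ (3 * C1 + C2) * L ^ 2 * E := by nlinarith

theorem scnt (hLM : S_LMF) : S_CNT := by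
  intro κ c hκ hc
  obtain ⟨C, hC, h⟩ := scnt0 hLM (max κ 1) c (lt_of_lt_of_le one_pos (le_max_right _ _))
    (max_lt hκ (by norm_num)) hc
  refine ⟨C, hC, fun n T hT hcn S hS => (h n T hT hcn S hS).1.trans ?_⟩
  have h1 := one_le_log hT
  have h2 : Real.exp (-(max κ 1 * n)) ≤ Real.exp (-(κ * n)) := by
    apply Real.exp_le_exp.2
    have : (0 : ℝ) ≤ n := Nat.cast_nonneg n
    have := le_max_left κ 1
    nlinarith
  exact mul_le_mul_of_nonneg_left h2 (by positivity)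

theorem ssum (hLM : S_LMF) : S_SUM := by
  intro κ c hκ hc
  obtain ⟨C, hC, h⟩ := scnt0 hLM (max κ 1) c (lt_of_lt_of_le one_pos (le_max_right _ _))
    (max_lt hκ (by norm_num)) hc
  refine ⟨C, hC, fun n T hT hcn S hS => (h n T hT hcn S hS).2.trans ?_⟩
  have h2 : Real.exp (-(max κ 1 * n)) ≤ Real.exp (-(κ * n)) := by
    apply Real.exp_le_exp.2
    have : (0 : ℝ) ≤ n := Nat.cast_nonneg n
    have := le_max_left κ 1
    nlinarith
  exact mul_le_mul_of_nonneg_left h2 (by positivity)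

end Pool.Agent.Zk5.JD
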