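import Pool.Agent.Zk5.JD.UnitF
import Pool.Agent.Zk17.J.ChJ
import Pool.Agent.W571.SD.Cov
import Pool.Agent.W571.SD.Mid
import Pool.Agent.TH850.UR.SelDens
import Pool.Agent.H986R2.K4.All

set_option autoImplicit false

/-!
# The number of non-real zeros of the derivatives of `FF`
-/

namespace Pool.Agent.Zk5.JD

open Complex Filter Topology MeasureTheory Set
open Pool.Agent.H24R2.JP (XX FF Par Good)
open Pool.Agent.H24R2.DZ
open Pool.Agent.Zk17.J
open Pool.Agent.W571.SD (cover ra_eq)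

/-- multiplicity -/
noncomputable def wf (n : ℕ) (x : ℂ) : ℝ := (analyticOrderNatAt (iteratedDeriv n FF) x : ℝ)

theorem wf_nonneg (n : ℕ) (x : ℂ) : 0 ≤ wf n x := Nat.cast_nonneg _

/-- non-real zeros of `FF^(n)` -/
def nrz (n : ℕ) (x : ℂ) : Prop := iteratedDeriv n FF x = 0 ∧ x.im ≠ 0

/-- the height -/
noncomputable def tau (x : ℂ) : ℝ := √(-x.re)

/-- Measure of the heights near non-real zeros, `n` of the order of `log T` (task of helper17). -/
def S_LMF : Prop := ∀ κt κ1 : ℝ, 0 < κt → κt < 4 → 0 < κ1 → ∃ C T0 : ℝ, 0 < C ∧ 2 ≤ T0 ∧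
  ∀ (T : ℝ) (n : ℕ), T0 ≤ T → κ1 * Real.log T ≤ n → (n : ℝ) ≤ Real.log T →
  volume {t : ℝ | T / 2 ≤ t ∧ t ≤ 3 * T ∧ ∃ v : ℂ, iteratedDeriv n FF (zv t v) = 0 ∧ v.re ≠ 0 ∧ |v.re| ≤ 1 ∧
    |v.im| ≤ ra T n / 100} ≤ ENNReal.ofReal (C * T * Real.exp (-(κt * n)))

/-- the number of the non-real zeros -/
def S_CNT : Prop := ∀ κ c : ℝ, κ < 4 → 0 < c → ∃ C : ℝ, 0 < C ∧ ∀ (n : ℕ) (T : ℝ), 1 ≤ T →
  c * Real.log T ≤ n → ∀ S : Finset ℂ, (∀ x ∈ S, iteratedDeriv n FF x = 0 ∧ x.im ≠ 0 ∧ ‖x‖ ≤ T ^ 2) →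
  ∑ x ∈ S, (analyticOrderNatAt (iteratedDeriv n FF) x : ℝ) ≤ C * T * Real.log (T + 2) * Real.exp (-(κ * n))

/-- the same with weights -/
def S_SUM : Prop := ∀ κ c : ℝ, κ < 4 → 0 < c → ∃ C : ℝ, 0 < C ∧ ∀ (n : ℕ) (T : ℝ), 1 ≤ T →
  c * Real.log T ≤ n → ∀ S : Finset ℂ, (∀ x ∈ S, iteratedDeriv n FF x = 0 ∧ x.im ≠ 0 ∧ ‖x‖ ≤ T ^ 2) →
  ∑ x ∈ S, (analyticOrderNatAt (iteratedDeriv n FF) x : ℝ) / √‖x‖ ≤
    C * (Real.log (T + 2)) ^ 2 * Real.exp (-(κ * n))

theorem par_of {n : ℕ} {x : ℂ} (h : iteratedDeriv n FF x = 0) : x.re + x.im ^ 2 ≤ 1 / 4 :=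
  Pool.Agent.H24R2.JP.parT FF Pool.Agent.H24R2.JP.goodT n x h

/-- the coordinate of a zero near the height `t` -/
theorem coord {n : ℕ} {x : ℂ} {t : ℝ} (h : nrz n x) (hτ : 1 ≤ tau x) (ht : |t - tau x| ≤ 1 / 4) :
    ∃ v : ℂ, zv t v = x ∧ v.re ≠ 0 ∧ |v.re| ≤ 1 ∧ |v.im| ≤ 2 * |t - tau x| := by
  have hp := par_of h.1
  have hre : x.re = -(tau x) ^ 2 := by
    unfold tau at hτ ⊢
    have h1 : 0 ≤ -x.re := by
      by_contra hcon
      push Not at hcon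
      rw [Real.sqrt_eq_zero_of_nonpos hcon.le] at hτ
      linarith
    rw [Real.sq_sqrt h1]; ring
  obtain ⟨τ, hτd⟩ : ∃ τ : ℝ, τ = tau x := ⟨_, rfl⟩
  rw [← hτd] at hre hτ ht ⊢
  have ht' := abs_le.1 ht
  have ht0 : 0 < t := by linarith
  refine ⟨⟨x.im / (2 * t), -(x.re + t ^ 2) / (2 * t)⟩, ?_, ?_, ?_, ?_⟩
  · rw [zv_eq]
    apply Complex.ext
    · simp only [add_re, neg_re, mul_re, mul_im, I_re, I_im, ofReal_re, ofReal_im, pow_two, re_ofNat, im_ofNat]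
      field_simp
      ring
    · simp only [add_im, neg_im, mul_re, mul_im, I_re, I_im, ofReal_re, ofReal_im, pow_two, re_ofNat, im_ofNat]
      field_simp
      ring
  · simp only
    exact div_ne_zero h.2 (by linarith)
  · simp only
    rw [abs_div, abs_of_pos (by linarith : (0 : ℝ) < 2 * t), div_le_one (by linarith)]
    apply abs_le_of_sq_le_sq _ (by linarith)
    nlinarith
  · simp only
    rw [abs_div, abs_of_pos (by linarith : (0 : ℝ) < 2 * t), div_le_iff₀ (by linarith), hre]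
    have h1 : -(-τ ^ 2 + t ^ 2) = -((t - τ) * (t + τ)) := by ring
    rw [h1, abs_neg, abs_mul, abs_of_pos (by linarith : (0 : ℝ) < t + τ)]
    have h2 := abs_nonneg (t - τ)
    nlinarith

theorem zv_inj {t : ℝ} (ht : t ≠ 0) {v w : ℂ} (h : zv t v = zv t w) : v = w := by
  rw [zv_eq, zv_eq] at h
  have h1 : (2 * I * t : ℂ) ≠ 0 := by
    have : (t : ℂ) ≠ 0 := by exact_mod_cast ht
    simp [this]
  exact mul_left_cancel₀ h1 (add_left_cancel h)

/-- zeros in windows of bounded length -/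
theorem winF : ∃ C T0 : ℝ, 0 < C ∧ 2 ≤ T0 ∧ ∀ (t : ℝ) (n : ℕ), T0 ≤ t → (n : ℝ) ≤ 60 * Real.log t →
    ∀ S : Finset ℂ, (∀ x ∈ S, nrz n x ∧ |tau x - t| ≤ 1 / 4) → ∑ x ∈ S, wf n x ≤ C * Real.log t := by
  classical
  obtain ⟨C, T0, hC, hT0, h⟩ := unitF Pool.Agent.TH850.UR.sb2
  refine ⟨C, T0, hC, hT0, ?_⟩
  intro t n ht hn S hS
  have ht2 : 2 ≤ t := hT0.trans ht
  have hv : ∀ x : ℂ, ∃ v : ℂ, x ∈ S → zv t v = x ∧ |v.re| ≤ 1 ∧ |v.im| ≤ 1 := by
    intro x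
    by_cases hx : x ∈ S
    · obtain ⟨h1, h2⟩ := hS x hx
      have h3 := abs_le.1 h2
      obtain ⟨v, hv1, hv2, hv3, hv4⟩ := coord (t := t) h1 (by linarith) (by rw [abs_sub_comm]; exact h2)
      refine ⟨v, fun _ => ⟨hv1, hv3, ?_⟩⟩
      rw [abs_sub_comm] at hv4
      linarith
    · exact ⟨0, fun h => absurd h hx⟩
  choose v hv using hv
  have hinj : Set.InjOn v S := by
    intro x hx y hy hxy
    rw [← (hv x hx).1, ← (hv y hy).1, hxy]
  have h1 := h t n ht hn (S.image v) (by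
    intro w hw
    rw [Finset.mem_image] at hw
    obtain ⟨x, hx, rfl⟩ := hw
    exact (hv x hx).2)
  rw [Finset.sum_image hinj] at h1
  refine le_trans (le_of_eq ?_) h1
  refine Finset.sum_congr rfl fun x hx => ?_
  rw [(hv x hx).1]
  rfl

/-- dyadic windows -/
theorem sbf (hLM : S_LMF) (κt κ1 : ℝ) (hκt0 : 0 < κt) (hκt4 : κt < 4) (hκ1 : 0 < κ1) :
    ∃ C T0 : ℝ, 0 < C ∧ 2 ≤ T0 ∧ ∀ (T : ℝ) (n : ℕ), T0 ≤ T → κ1 * Real.log T ≤ n →
    (n : ℝ) ≤ Real.log T → ∀ S : Finset ℂ, (∀ x ∈ S, nrz n x ∧ T < tau x ∧ tau x ≤ 2 * T) →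
    ∑ x ∈ S, wf n x ≤ C * T * Real.exp (-(κt * n)) * Real.log T := by
  classical
  obtain ⟨C5, T5, hC5, hT5, hunit⟩ := winF
  obtain ⟨CL, TL, hCL, hTL, hLM⟩ := hLM κt κ1 hκt0 hκt4 hκ1
  refine ⟨200 * C5 * CL / κ1, max TL (max T5 1000), by positivity, hTL.trans (le_max_left _ _), ?_⟩
  intro T n hT hn1 hnL S hS
  have hTTL : TL ≤ T := (le_max_left _ _).trans hT
  have hTT5 : T5 ≤ T := ((le_max_left _ _).trans (le_max_right _ _)).trans hT
  have hT1000 : 1000 ≤ T := ((le_max_right _ _).trans (le_max_right _ _)).trans hT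
  have hT0 : 0 < T := by linarith
  obtain ⟨L, hL⟩ : ∃ L : ℝ, L = Real.log T := ⟨_, rfl⟩
  have hL2 : 2 ≤ L := by
    rw [hL, Real.le_log_iff_exp_le hT0]
    have h1 := Real.exp_one_lt_d9
    have h2 : Real.exp 2 = Real.exp 1 ^ 2 := by rw [← Real.exp_nat_mul]; norm_num
    rw [h2]
    nlinarith [Real.exp_pos 1]
  have hL0 : 0 < L := by linarith
  have hLM' := hLM T n hTTL hn1 hnL
  rw [← hL] at hn1 hnL ⊢
  have hn0 : (0 : ℝ) < n := lt_of_lt_of_le (by positivity) hn1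
  obtain ⟨r, hr⟩ : ∃ r : ℝ, r = ra T n := ⟨_, rfl⟩
  rw [← hr] at hLM'
  have hrn : r = 2 * n / L := by rw [hr, hL]; exact ra_eq _ _
  have hr1 : 2 * κ1 ≤ r := by
    rw [hrn, le_div_iff₀ hL0]; linarith
  have hr2 : r ≤ 2 := by
    rw [hrn, div_le_iff₀ hL0]; linarith
  have hr0 : 0 < r := by linarith
  have hδ0 : 0 < r / 200 := by positivity
  have h10 := cover (wf n) (wf_nonneg n) tau (r / 200) (2 * C5 * L)
    hδ0 (by positivity) S _ (CL * T * Real.exp (-(κt * n))) (by positivity)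
    (by
      intro x hx
      obtain ⟨hb, hs1, hs2⟩ := hS x hx
      intro t ht
      have ht1 : |t - tau x| ≤ r / 200 := by
        rw [abs_le]; constructor <;> linarith [ht.1, ht.2]
      obtain ⟨v, hv1, hv2, hv3, hv4⟩ := coord (t := t) hb (by linarith) (by linarith)
      refine ⟨by linarith [ht.1], by linarith [ht.2], v, ?_, hv2, hv3, ?_⟩
      · rw [hv1]; exact hb.1
      · linarith)
    hLM'
    (by
      intro x0 hx0
      obtain ⟨hb0, hs1, hs2⟩ := hS x0 hx0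
      have h11 := hunit (tau x0) n (by linarith) (by
        have h12 : L ≤ Real.log (tau x0) := by
          rw [hL]; exact Real.log_le_log hT0 hs1.le
        linarith)
        (S.filter (fun s' => |tau s' - tau x0| ≤ 2 * (r / 200))) (by
          intro s hs
          rw [Finset.mem_filter] at hs
          exact ⟨(hS s hs.1).1, by linarith [hs.2]⟩)
      refine h11.trans ?_
      have h12 : Real.log (tau x0) ≤ 2 * L := by
        have h13 : Real.log (tau x0) ≤ Real.log (2 * T) := Real.log_le_log (by linarith) hs2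
        rw [Real.log_mul (by norm_num) hT0.ne', ← hL] at h13
        have := Real.log_two_lt_d9
        linarith
      calc C5 * Real.log (tau x0) ≤ C5 * (2 * L) := by gcongr
        _ = 2 * C5 * L := by ring)
  refine h10.trans ?_
  rw [div_le_iff₀ (by positivity)]
  have h11 : κ1 / 50 ≤ 2 * (r / 200) := by linarith
  have h12 : 0 ≤ 200 * C5 * CL / κ1 * T * Real.exp (-(κt * n)) * L := by positivity
  calc 2 * C5 * L * (CL * T * Real.exp (-(κt * n)))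
      ≤ 4 * C5 * L * (CL * T * Real.exp (-(κt * n))) := by
        have : 0 ≤ C5 * L * (CL * T * Real.exp (-(κt * n))) := by positivity
        linarith
    _ = 200 * C5 * CL / κ1 * T * Real.exp (-(κt * n)) * L * (κ1 / 50) := by field_simp; ring
    _ ≤ _ := mul_le_mul_of_nonneg_left h11 h12

/-- zeros in a fixed disc -/
theorem disc (n : ℕ) (R : ℝ) (hR : 1 ≤ R) : ∃ M : ℝ, 0 ≤ M ∧ ∀ S : Finset ℂ, (∀ x ∈ S, ‖x‖ ≤ R) →
    ∑ x ∈ S, wf n x ≤ M := by
  have hd : Differentiable ℂ (iteratedDeriv n FF) := iter_diff' FF_diff n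
  have h0 : iteratedDeriv n FF 0 ≠ 0 := Pool.Agent.H24R2.JP.goodT.2.2 n
  obtain ⟨B, hB⟩ := (isCompact_closedBall (0 : ℂ) (2 * R)).exists_bound_of_continuousOn
    (hd.continuous.continuousOn (s := Metric.closedBall (0 : ℂ) (2 * R)))
  have hn0 : 0 < ‖iteratedDeriv n FF 0‖ := norm_pos_iff.2 h0
  obtain ⟨A, hA⟩ : ∃ A : ℝ, A = |B| / ‖iteratedDeriv n FF 0‖ := ⟨_, rfl⟩
  have hA0 : 0 ≤ A := by rw [hA]; positivity
  have hlog : 0 < Real.log (2 * R / R) := by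
    rw [mul_div_assoc, div_self (by linarith), mul_one]
    exact Real.log_pos (by norm_num)
  refine ⟨A / Real.log (2 * R / R), by positivity, ?_⟩
  intro S hS
  refine Pool.Agent.W125.SD.jcount hd (c := 0) (r := R) (R := 2 * R) (by linarith) (by linarith) h0 (by
    intro z hz
    rw [sub_zero] at hz
    have h1 := hB z (by rw [mem_closedBall_zero_iff]; exact hz)
    refine h1.trans ?_
    have h2 : A ≤ Real.exp A := by have := Real.add_one_le_exp A; linarith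
    calc B ≤ |B| := le_abs_self B
      _ = A * ‖iteratedDeriv n FF 0‖ := by rw [hA]; field_simp
      _ ≤ _ := by gcongr) S (by
    intro s hs
    rw [sub_zero]
    exact hS s hs)

/-- decomposition into dyadic windows -/
theorem dyad {w : ℂ → ℝ} (hw : ∀ x, 0 ≤ w x) {τ : ℂ → ℝ} {T T0 : ℝ} (K : ℕ) (hK : T / 2 ^ K ≤ T0)
    (S : Finset ℂ) (hS : ∀ x ∈ S, T0 < τ x ∧ τ x ≤ T) :
    ∑ x ∈ S, w x ≤ ∑ k ∈ Finset.range K,
      ∑ x ∈ S.filter (fun x => T / 2 ^ (k + 1) < τ x ∧ τ x ≤ T / 2 ^ k), w x := by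
  classical
  have h1 : ∀ x ∈ S, ∃ k ∈ Finset.range K, T / 2 ^ (k + 1) < τ x ∧ τ x ≤ T / 2 ^ k := by
    intro x hx
    obtain ⟨h2, h3⟩ := hS x hx
    have hex : ∃ k : ℕ, T / 2 ^ k < τ x := ⟨K, lt_of_le_of_lt hK h2⟩
    have h4 := Nat.find_spec hex
    have h5 : Nat.find hex ≤ K := Nat.find_min' hex (lt_of_le_of_lt hK h2)
    have h6 : Nat.find hex ≠ 0 := by
      intro h0
      rw [h0, pow_zero, div_one] at h4
      linarith
    obtain ⟨k, hk⟩ := Nat.exists_eq_succ_of_ne_zero h6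
    refine ⟨k, Finset.mem_range.2 (by omega), ?_, ?_⟩
    · rw [hk] at h4; exact h4
    · have := Nat.find_min hex (m := k) (by omega)
      exact not_lt.1 this
  rw [Finset.sum_comm' (s' := fun x => (Finset.range K).filter
    (fun k => T / 2 ^ (k + 1) < τ x ∧ τ x ≤ T / 2 ^ k)) (t' := S) (by
      intro k x
      simp only [Finset.mem_filter]
      tauto)]
  refine Finset.sum_le_sum fun x hx => ?_
  obtain ⟨k, hk, h2⟩ := h1 x hx
  rw [Finset.sum_const, nsmul_eq_mul]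
  have h3 : 1 ≤ ((Finset.range K).filter (fun k => T / 2 ^ (k + 1) < τ x ∧ τ x ≤ T / 2 ^ k)).card := by
    rw [Nat.one_le_iff_ne_zero, Finset.card_ne_zero]
    exact ⟨k, Finset.mem_filter.2 ⟨hk, h2⟩⟩
  have h4 : (1 : ℝ) ≤ (((Finset.range K).filter (fun k => T / 2 ^ (k + 1) < τ x ∧ τ x ≤ T / 2 ^ k)).card : ℝ) := by
    exact_mod_cast h3
  exact le_mul_of_one_le_left (hw x) h4

end Pool.Agent.Zk5.JD
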