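import Pool.Agent.Zk17.J.NormJ
import Pool.Agent.Zk69.DH.Basic
import Pool.Agent.H24R2.DZ.XB

set_option autoImplicit false

/-!
JD, counting: the normalised local situation `NN` for `w ↦ FF (-t² + 2 i t r w)` from the local situations for `XX`
at the scales `6/5 a` and (shifted) `4/5 a`.
-/

namespace Pool.Agent.Zk5.JD

open Complex Filter Topology MeasureTheory Set
open Pool.Agent.H24R2.JP (XX FF b1)
open Pool.Agent.H24R2.DZ
open Pool.Agent.Zk17.J

lemma XX_diff : Differentiable ℂ XX := by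
  have h : Differentiable ℂ completedRiemannZeta₀ := differentiable_completedZeta₀
  unfold Pool.Agent.H24R2.JP.XX
  refine Differentiable.add_const _ (Differentiable.mul (by fun_prop) ?_)
  exact h.comp (by fun_prop)

lemma ld_affine (F : ℂ → ℂ) (hF : Differentiable ℂ F) (c β ζ : ℂ) :
    logDeriv (fun ζ => F (c * (ζ - β))) ζ = c * logDeriv F (c * (ζ - β)) := by
  have hlin : HasDerivAt (fun ζ : ℂ => c * (ζ - β)) c ζ := by
    simpa using ((hasDerivAt_id ζ).sub_const β).const_mul c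
  have h1 : HasDerivAt (fun ζ : ℂ => F (c * (ζ - β))) (deriv F (c * (ζ - β)) * c) ζ :=
    HasDerivAt.comp (h₂ := F) ζ (hF _).hasDerivAt hlin
  rw [logDeriv_apply, logDeriv_apply, h1.deriv]
  ring

/-- the local function -/
noncomputable def GG (t r : ℝ) (ζ : ℂ) : ℂ := XX (I * t + r * ζ)

lemma GG_diff (t r : ℝ) : Differentiable ℂ (GG t r) := by
  unfold GG
  exact XX_diff.comp (by fun_prop)

lemma GG_symm (t r : ℝ) (z : ℂ) : GG t r (-((starRingEnd ℂ) z)) = (starRingEnd ℂ) (GG t r z) := by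
  unfold GG
  rw [← Pool.Agent.H24R2.DZ.XBAux.xsymm]
  congr 1
  simp only [map_add, map_mul, Complex.conj_ofReal, Complex.conj_I]
  ring

/-- change of the frame -/
lemma frame {a c η t t1 r : ℝ} {k : ℝ} (hc : 0 < c) (ht : t1 = t + k * r)
    (hN : NN (c * a) η (fun z => XX (I * t1 + (c * r : ℝ) * z))) (ζ : ℂ) :
    GG t r ζ = (fun z => XX (I * t1 + (c * r : ℝ) * z)) ((c⁻¹ : ℝ) * (ζ - I * k)) ∧
    ((1 / 1000 ≤ (((c⁻¹ : ℝ) : ℂ) * (ζ - I * k)).re ∧ ‖((c⁻¹ : ℝ) : ℂ) * (ζ - I * k)‖ ≤ 20) →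
      GG t r ζ ≠ 0 ∧ ‖logDeriv (GG t r) ζ - a‖ ≤ η * a) := by
  have hcc : (c : ℂ) ≠ 0 := by exact_mod_cast hc.ne'
  have e : ∀ ζ : ℂ, GG t r ζ = (fun z => XX (I * t1 + (c * r : ℝ) * z)) ((c⁻¹ : ℝ) * (ζ - I * k)) := by
    intro ζ
    unfold GG
    simp only
    congr 1
    rw [ht]
    push_cast
    field_simp
    ring
  refine ⟨e ζ, fun h => ?_⟩
  obtain ⟨g1, g2⟩ := hN.far _ h.1 h.2
  refine ⟨by rw [e ζ]; exact g1, ?_⟩
  have h2 := ld_affine (fun z => XX (I * t1 + (c * r : ℝ) * z)) hN.diff ((c⁻¹ : ℝ) : ℂ) (I * k) ζ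
  have h3 : (fun ζ => (fun z => XX (I * t1 + (c * r : ℝ) * z)) (((c⁻¹ : ℝ) : ℂ) * (ζ - I * k))) =
      GG t r := by
    funext ζ; exact (e ζ).symm
  rw [h3] at h2
  rw [h2]
  have h4 : ((c⁻¹ : ℝ) : ℂ) * logDeriv (fun z => XX (I * t1 + (c * r : ℝ) * z)) (((c⁻¹ : ℝ) : ℂ) * (ζ - I * k)) - a =
      ((c⁻¹ : ℝ) : ℂ) * (logDeriv (fun z => XX (I * t1 + (c * r : ℝ) * z)) (((c⁻¹ : ℝ) : ℂ) * (ζ - I * k)) -
        ((c * a : ℝ) : ℂ)) := by
    push_cast
    field_simp
  rw [h4, norm_mul, Complex.norm_real, Real.norm_eq_abs, abs_of_pos (inv_pos.2 hc)]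
  calc c⁻¹ * ‖logDeriv (fun z => XX (I * t1 + (c * r : ℝ) * z)) (((c⁻¹ : ℝ) : ℂ) * (ζ - I * k)) -
        ((c * a : ℝ) : ℂ)‖ ≤ c⁻¹ * (η * (c * a)) := by
        have := inv_pos.2 hc
        gcongr
    _ = η * a := by field_simp

theorem nnF {η : ℝ} (hη : 0 < η) : ∃ η' T0 : ℝ, 0 < η' ∧ 2 ≤ T0 ∧ ∀ (a r t : ℝ), T0 ≤ t → 1 ≤ a → 0 < r →
    r ≤ 1 / 100 →
    NN (6 / 5 * a) η' (fun z => XX (I * t + (6 / 5 * r : ℝ) * z)) →
    (∀ k : ℤ, |k| ≤ 20 → NN (4 / 5 * a) η' (fun z => XX (I * ((t + k * r : ℝ) : ℂ) + (4 / 5 * r : ℝ) * z))) →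
    NN a η (fun z => FF (zv t (r * z))) := by
  obtain ⟨η', hη'd⟩ : ∃ η' : ℝ, η' = min (η / 4) (1 / 4000) := ⟨_, rfl⟩
  have hη' : 0 < η' := by rw [hη'd]; exact lt_min (by positivity) (by norm_num)
  have hη'1 : η' ≤ η / 4 := by rw [hη'd]; exact min_le_left _ _
  have hη'2 : η' ≤ 1 / 4000 := by rw [hη'd]; exact min_le_right _ _
  refine ⟨η', max 100000 (4 / η), hη', le_trans (by norm_num) (le_max_left _ _), ?_⟩
  intro a r t hT ha hr hr1 h1 h2
  have hT1 : 100000 ≤ t := (le_max_left _ _).trans hT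
  have hT2 : 4 / η ≤ t := (le_max_right _ _).trans hT
  have ht0 : 0 < t := by linarith
  have ha0 : 0 < a := by linarith
  -- far region for `GG`
  have hfar : ∀ ζ : ℂ, 8 / 10000 ≤ ζ.re → ‖ζ‖ ≤ 204 / 10 → GG t r ζ ≠ 0 ∧ ‖logDeriv (GG t r) ζ - a‖ ≤ η' * a := by
    intro ζ hζ1 hζ2
    by_cases hc : 12 / 10000 ≤ ζ.re
    · have h := (frame (a := a) (c := 6 / 5) (η := η') (t := t) (t1 := t) (r := r) (k := 0) (by norm_num)
        (by ring) h1 ζ).2
      apply h
      have e1 : (((6 / 5 : ℝ)⁻¹ : ℝ) : ℂ) * (ζ - I * ((0 : ℝ) : ℂ)) = ((5 / 6 : ℝ) : ℂ) * ζ := by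
        push_cast; ring
      rw [e1]
      constructor
      · rw [re_ofReal_mul]; linarith
      · rw [norm_mul, Complex.norm_real, Real.norm_eq_abs, abs_of_pos (by norm_num)]; linarith
    · push Not at hc
      have hk : |round ζ.im| ≤ 20 := by
        have h3 := abs_sub_round ζ.im
        have h4 := (Complex.abs_im_le_norm ζ).trans hζ2
        have h5 : |((round ζ.im : ℤ) : ℝ)| < 21 := by
          have h6 : |((round ζ.im : ℤ) : ℝ)| ≤ |ζ.im - round ζ.im| + |ζ.im| := by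
            have := abs_sub_abs_le_abs_sub ((round ζ.im : ℤ) : ℝ) ζ.im
            rw [abs_sub_comm] at this
            linarith
          linarith
        have h7 : |round ζ.im| < 21 := by exact_mod_cast h5
        omega
      have h := (frame (a := a) (c := 4 / 5) (η := η') (t := t) (r := r) (k := ((round ζ.im : ℤ) : ℝ)) (by norm_num)
        rfl (h2 _ hk) ζ).2
      apply h
      have h3 := abs_sub_round ζ.im
      constructor
      · rw [re_ofReal_mul]
        have e1 : (ζ - I * (((round ζ.im : ℤ) : ℝ) : ℂ)).re = ζ.re := by simp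
        rw [e1]
        norm_num
        linarith
      · rw [norm_mul, Complex.norm_real, Real.norm_eq_abs, abs_of_pos (by norm_num)]
        have h4 := Complex.norm_le_abs_re_add_abs_im (ζ - I * (((round ζ.im : ℤ) : ℝ) : ℂ))
        have e1 : (ζ - I * (((round ζ.im : ℤ) : ℝ) : ℂ)).re = ζ.re := by simp
        have e2 : (ζ - I * (((round ζ.im : ℤ) : ℝ) : ℂ)).im = ζ.im - round ζ.im := by simp
        rw [e1, e2, abs_of_nonneg (by linarith)] at h4
        have hinv : (4 / 5 : ℝ)⁻¹ = 5 / 4 := by norm_num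
        rw [hinv]
        linarith
  -- growth in the far region
  have hgrow : ∀ p q : ℂ, 8 / 10000 ≤ p.re → 8 / 10000 ≤ q.re → ‖p‖ ≤ 204 / 10 → ‖q‖ ≤ 204 / 10 →
      ‖GG t r q‖ ≤ Real.exp (a * (q.re - p.re) + η' * a * ‖q - p‖) * ‖GG t r p‖ := by
    intro p q hp1 hq1 hp2 hq2
    refine Pool.Agent.Zk69.DH.grow_seg (GG t r) a η' p q hη'.le ha0.le fun x hx => ?_
    have hconv : p + x * (q - p) = ((1 - x : ℝ) : ℂ) * p + (x : ℂ) * q := by
      push_cast
      ring
    have g1 : 8 / 10000 ≤ (p + x * (q - p)).re := by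
      rw [hconv, add_re, re_ofReal_mul, re_ofReal_mul]
      nlinarith [hx.1, hx.2]
    have g2 : ‖p + x * (q - p)‖ ≤ 204 / 10 := by
      rw [hconv]
      refine (norm_add_le _ _).trans ?_
      rw [norm_mul, norm_mul, Complex.norm_real, Complex.norm_real, Real.norm_eq_abs, Real.norm_eq_abs,
        abs_of_nonneg hx.1, abs_of_nonneg (by linarith [hx.2] : (0 : ℝ) ≤ 1 - x)]
      nlinarith [hx.1, hx.2]
    obtain ⟨g3, g4⟩ := hfar _ g1 g2
    exact ⟨(GG_diff t r) _, g3, g4⟩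
  -- the points
  have hpt : ∀ z : ℂ, ‖z‖ ≤ 20 → ∃ ζ : ℂ, FF (zv t (r * z)) = GG t r ζ ∧ wv t (r * z) = I * t + r * ζ ∧
      ‖ζ - z‖ ≤ 1 / 10000 := by
    intro z hz
    refine ⟨(wv t (r * z) - I * t) / r, ?_, ?_, ?_⟩
    · unfold GG
      rw [FF_zv ht0.ne']
      congr 1
      have : (r : ℂ) ≠ 0 := by exact_mod_cast hr.ne'
      field_simp
      ring
    · have : (r : ℂ) ≠ 0 := by exact_mod_cast hr.ne'
      field_simp
      ring
    · have hrc : (r : ℂ) ≠ 0 := by exact_mod_cast hr.ne'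
      have e1 : (wv t (r * z) - I * t) / r - z = (wv t (r * z) - (I * t + r * z)) / r := by
        field_simp
        ring
      rw [e1, norm_div, Complex.norm_real, Real.norm_eq_abs, abs_of_pos hr, div_le_iff₀ hr]
      refine (norm_wv_sub ht0 _).trans ?_
      rw [norm_mul, Complex.norm_real, Real.norm_eq_abs, abs_of_pos hr, div_le_iff₀ ht0]
      have h3 : (r * ‖z‖) ^ 2 ≤ r * (1 / 100) * 400 := by
        have h4 : ‖z‖ ^ 2 ≤ 400 := by nlinarith [norm_nonneg z]
        calc (r * ‖z‖) ^ 2 = r * r * ‖z‖ ^ 2 := by ring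
          _ ≤ r * (1 / 100) * 400 := by gcongr
      nlinarith
  refine ⟨FF_zv_diff t r, fun z => FF_zv_symm t r z, ?_, ?_⟩
  · -- far
    intro z hz1 hz2
    obtain ⟨ζ, e1, e2, e3⟩ := hpt z hz2
    have e4 : |ζ.re - z.re| ≤ 1 / 10000 := by
      have := Complex.abs_re_le_norm (ζ - z)
      rw [Complex.sub_re] at this
      linarith
    have e4' := abs_le.1 e4
    have e5 : ‖ζ‖ ≤ 204 / 10 := by
      have := norm_sub_norm_le ζ z
      linarith
    obtain ⟨g1, g2⟩ := hfar ζ (by linarith) e5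
    refine ⟨by rw [e1]; exact g1, ?_⟩
    have hz4 : 4 * ‖(r : ℂ) * z‖ ≤ t := by
      rw [norm_mul, Complex.norm_real, Real.norm_eq_abs, abs_of_pos hr]
      nlinarith [norm_nonneg z]
    rw [logDeriv_FF_scale ht0 r hz4]
    have h3 : logDeriv (GG t r) ζ = r * logDeriv XX (wv t (r * z)) := by
      have h4 := ld_affine (fun w => XX (I * t + w)) (XX_diff.comp (by fun_prop)) (r : ℂ) 0 ζ
      have h5 : (fun ζ : ℂ => (fun w => XX (I * t + w)) ((r : ℂ) * (ζ - 0))) = GG t r := by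
        funext ζ; simp [GG]
      rw [h5] at h4
      rw [h4, e2, sub_zero]
      congr 1
      have h6 : HasDerivAt (fun w : ℂ => XX (I * t + w)) (deriv XX (I * t + r * ζ)) (r * ζ) := by
        have h7 : HasDerivAt (fun w : ℂ => I * (t : ℂ) + w) 1 (r * ζ) := by
          simpa using (hasDerivAt_id ((r : ℂ) * ζ)).const_add (I * (t : ℂ))
        have h8 := HasDerivAt.comp (h₂ := XX) ((r : ℂ) * ζ) (XX_diff _).hasDerivAt h7
        rw [mul_one] at h8
        exact h8
      rw [logDeriv_apply, logDeriv_apply, h6.deriv]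
    have h4 : (r : ℂ) * (I * t / wv t (r * z) * logDeriv XX (wv t (r * z))) - a =
        (logDeriv (GG t r) ζ - a) + (I * t / wv t (r * z) - 1) * logDeriv (GG t r) ζ := by
      rw [h3]; ring
    rw [h4]
    have h5 := norm_div_sub ht0 hz4
    have h6 : 4 * ‖(r : ℂ) * z‖ / t ≤ η / 4 := by
      rw [div_le_iff₀ ht0, norm_mul, Complex.norm_real, Real.norm_eq_abs, abs_of_pos hr]
      have h7 : r * ‖z‖ ≤ 1 / 100 * 20 := by gcongr
      have h8 : 1 ≤ η / 4 * t := by
        have := mul_le_mul_of_nonneg_left hT2 hη.le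
        rw [mul_div_cancel₀ _ hη.ne'] at this
        linarith
      linarith
    have h7 : ‖logDeriv (GG t r) ζ‖ ≤ 2 * a := by
      have := norm_add_le (logDeriv (GG t r) ζ - (a : ℂ)) (a : ℂ)
      rw [sub_add_cancel, Complex.norm_real, Real.norm_eq_abs, abs_of_pos ha0] at this
      nlinarith
    calc ‖(logDeriv (GG t r) ζ - a) + (I * t / wv t (r * z) - 1) * logDeriv (GG t r) ζ‖
        ≤ ‖logDeriv (GG t r) ζ - a‖ + ‖I * t / wv t (r * z) - 1‖ * ‖logDeriv (GG t r) ζ‖ := by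
          rw [← norm_mul]; exact norm_add_le _ _
      _ ≤ η / 4 * a + η / 4 * (2 * a) := by
          have h8 : η' * a ≤ η / 4 * a := by gcongr
          exact add_le_add (g2.trans h8) (mul_le_mul (h5.trans h6) h7 (norm_nonneg _) (by positivity))
      _ ≤ η * a := by nlinarith
  · -- near
    intro z hz1 hz2
    obtain ⟨ζ, e1, -, e3⟩ := hpt z hz2
    obtain ⟨ζ1, f1, -, f3⟩ := hpt 1 (by rw [norm_one]; norm_num)
    have e4 : |ζ.re - z.re| ≤ 1 / 10000 := by
      have := Complex.abs_re_le_norm (ζ - z)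
      rw [Complex.sub_re] at this
      linarith
    have e5 : ‖ζ‖ ≤ 201 / 10 := by
      have := norm_sub_norm_le ζ z
      linarith
    have f4 : |ζ1.re - 1| ≤ 1 / 10000 := by
      have := Complex.abs_re_le_norm (ζ1 - 1)
      rw [Complex.sub_re, Complex.one_re] at this
      linarith
    have f4' := abs_le.1 f4
    have f5 : ‖ζ1‖ ≤ 2 := by
      have := norm_sub_norm_le ζ1 1
      rw [norm_one] at this
      linarith
    -- comparison of the reference points
    have h3 : ‖GG t r 1‖ ≤ Real.exp (a / 1000) * ‖GG t r ζ1‖ := by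
      refine (hgrow ζ1 1 (by linarith) (by norm_num) (by linarith) (by rw [norm_one]; norm_num)).trans ?_
      refine mul_le_mul_of_nonneg_right ?_ (norm_nonneg _)
      apply Real.exp_le_exp.2
      rw [Complex.one_re, norm_sub_rev]
      have : η' * a * ‖ζ1 - 1‖ ≤ 1 / 4000 * a * 1 := by
        apply mul_le_mul (by gcongr) (by linarith) (norm_nonneg _) (by positivity)
      nlinarith
    have hright : ∀ ξ : ℂ, 8 / 10000 ≤ ξ.re → ξ.re ≤ 12 / 10000 → ‖ξ‖ ≤ 201 / 10 →
        ‖GG t r ξ‖ ≤ Real.exp (-(91 / 100 * a)) * ‖GG t r 1‖ := by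
      intro ξ hξ1 hξ2 hξ3
      refine (hgrow 1 ξ (by norm_num) hξ1 (by rw [norm_one]; norm_num) (by linarith)).trans ?_
      refine mul_le_mul_of_nonneg_right ?_ (norm_nonneg _)
      apply Real.exp_le_exp.2
      rw [Complex.one_re]
      have h4 : ‖ξ - 1‖ ≤ 22 := by
        refine (norm_sub_le _ _).trans ?_
        rw [norm_one]; linarith
      have : η' * a * ‖ξ - 1‖ ≤ 1 / 4000 * a * 22 := by
        apply mul_le_mul (by gcongr) h4 (norm_nonneg _) (by positivity)
      nlinarith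
    have hmain : ‖GG t r ζ‖ ≤ Real.exp (-(91 / 100 * a)) * ‖GG t r 1‖ := by
      have e4' := abs_le.1 e4
      have hz1' := abs_le.1 hz1
      by_cases hc1 : 8 / 10000 ≤ ζ.re
      · exact hright ζ hc1 (by linarith) e5
      push Not at hc1
      by_cases hc2 : ζ.re ≤ -(8 / 10000)
      · have h4 := hright (-((starRingEnd ℂ) ζ)) (by simp; linarith) (by simp; linarith) (by
          rw [norm_neg, RCLike.norm_conj]; exact e5)
        rw [GG_symm, RCLike.norm_conj] at h4
        exact h4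
      push Not at hc2
      -- near the line
      have hk : |round ζ.im| ≤ 20 := by
        have h3 := abs_sub_round ζ.im
        have h4 := (Complex.abs_im_le_norm ζ).trans e5
        have h5 : |((round ζ.im : ℤ) : ℝ)| < 21 := by
          have h6 : |((round ζ.im : ℤ) : ℝ)| ≤ |ζ.im - round ζ.im| + |ζ.im| := by
            have := abs_sub_abs_le_abs_sub ((round ζ.im : ℤ) : ℝ) ζ.im
            rw [abs_sub_comm] at this
            linarith
          linarith
        have h7 : |round ζ.im| < 21 := by exact_mod_cast h5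
        omega
      have hkr : |((round ζ.im : ℤ) : ℝ)| ≤ 20 := by exact_mod_cast hk
      have hN := h2 _ hk
      obtain ⟨u, hu⟩ : ∃ u : ℂ, u = (((4 / 5 : ℝ)⁻¹ : ℝ) : ℂ) * (ζ - I * (((round ζ.im : ℤ) : ℝ) : ℂ)) := ⟨_, rfl⟩
      have hf := (frame (a := a) (c := 4 / 5) (η := η') (t := t) (r := r) (k := ((round ζ.im : ℤ) : ℝ)) (by norm_num)
        rfl hN ζ).1
      rw [← hu] at hf
      have hu1 : |u.re| ≤ 1 / 1000 := by
        rw [hu, re_ofReal_mul]
        have e1 : (ζ - I * (((round ζ.im : ℤ) : ℝ) : ℂ)).re = ζ.re := by simp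
        rw [e1, abs_mul, abs_of_pos (by norm_num)]
        have : |ζ.re| ≤ 8 / 10000 := abs_le.2 ⟨by linarith, hc1.le⟩
        norm_num
        linarith
      have hu2 : ‖u‖ ≤ 20 := by
        rw [hu, norm_mul, Complex.norm_real, Real.norm_eq_abs, abs_of_pos (by norm_num)]
        have h4 := Complex.norm_le_abs_re_add_abs_im (ζ - I * (((round ζ.im : ℤ) : ℝ) : ℂ))
        have e1 : (ζ - I * (((round ζ.im : ℤ) : ℝ) : ℂ)).re = ζ.re := by simp
        have e2 : (ζ - I * (((round ζ.im : ℤ) : ℝ) : ℂ)).im = ζ.im - round ζ.im := by simp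
        have h3 := abs_sub_round ζ.im
        have : |ζ.re| ≤ 8 / 10000 := abs_le.2 ⟨by linarith, hc1.le⟩
        rw [e1, e2] at h4
        have hinv : (4 / 5 : ℝ)⁻¹ = 5 / 4 := by norm_num
        rw [hinv]
        linarith
      have h4 := hN.near u hu1 hu2
      rw [hf]
      refine h4.trans ?_
      have h5 : XX (I * ((t + ((round ζ.im : ℤ) : ℝ) * r : ℝ) : ℂ) + (4 / 5 * r : ℝ) * 1) =
          GG t r (4 / 5 + I * (((round ζ.im : ℤ) : ℝ) : ℂ)) := by
        unfold GG
        congr 1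
        push_cast
        ring
      rw [h5]
      obtain ⟨q, hq⟩ : ∃ q : ℂ, q = 4 / 5 + I * (((round ζ.im : ℤ) : ℝ) : ℂ) := ⟨_, rfl⟩
      rw [← hq]
      have hq1 : q.re = 4 / 5 := by
        have : (4 / 5 : ℂ) = ((4 / 5 : ℝ) : ℂ) := by push_cast; ring
        rw [hq, add_re, this, ofReal_re]
        simp
      have hq2 : ‖q‖ ≤ 202 / 10 := by
        have e1 : q.im = ((round ζ.im : ℤ) : ℝ) := by
          have : (4 / 5 : ℂ) = ((4 / 5 : ℝ) : ℂ) := by push_cast; ring
          rw [hq, add_im, this, ofReal_im]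
          simp
        have e2 : ‖q‖ ^ 2 = q.re ^ 2 + q.im ^ 2 := by
          rw [← Complex.normSq_eq_norm_sq, Complex.normSq_apply]; ring
        have e3 : q.im ^ 2 ≤ 400 := by
          rw [e1]
          have := sq_le_sq' (abs_le.1 hkr).1 (abs_le.1 hkr).2
          linarith
        have e4 : ‖q‖ ^ 2 ≤ (202 / 10) ^ 2 := by rw [e2, hq1]; linarith
        nlinarith [norm_nonneg q]
      have h6 := hgrow 1 q (by norm_num) (by rw [hq1]; norm_num) (by rw [norm_one]; norm_num) (by linarith)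
      have h7 : Real.exp (a * (q.re - (1 : ℂ).re) + η' * a * ‖q - 1‖) ≤ Real.exp (-(19 / 100 * a)) := by
        apply Real.exp_le_exp.2
        rw [Complex.one_re, hq1]
        have h8 : ‖q - 1‖ ≤ 22 := by
          refine (norm_sub_le _ _).trans ?_
          rw [norm_one]; linarith
        have : η' * a * ‖q - 1‖ ≤ 1 / 4000 * a * 22 := by
          apply mul_le_mul (by gcongr) h8 (norm_nonneg _) (by positivity)
        nlinarith
      calc ‖GG t r q‖ * Real.exp (-(9 / 10 * (4 / 5 * a)))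
          ≤ (Real.exp (-(19 / 100 * a)) * ‖GG t r 1‖) * Real.exp (-(9 / 10 * (4 / 5 * a))) := by
            gcongr
            exact h6.trans (by gcongr)
        _ = Real.exp (-(91 / 100 * a)) * ‖GG t r 1‖ := by
            rw [mul_right_comm, ← Real.exp_add]
            congr 2
            ring
    rw [e1, f1]
    calc ‖GG t r ζ‖ ≤ Real.exp (-(91 / 100 * a)) * (Real.exp (a / 1000) * ‖GG t r ζ1‖) := by
          refine hmain.trans ?_
          gcongr
      _ = Real.exp (-(91 / 100 * a) + a / 1000) * ‖GG t r ζ1‖ := by rw [Real.exp_add]; ring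
      _ ≤ ‖GG t r ζ1‖ * Real.exp (-(9 / 10 * a)) := by
          rw [mul_comm]
          gcongr
          linarith

end Pool.Agent.Zk5.JD
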