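import Pool.Agent.H986R2.K4.Win
import Pool.Agent.Zk17.J.Sq
import Pool.Agent.W125.SD.SUnitA
import Pool.Agent.H24R2.DZ.XB

set_option autoImplicit false

/-!
# Zeros of the derivatives of `FF` in unit windows
-/

namespace Pool.Agent.Zk5.JD

open Complex Filter Topology MeasureTheory Set Metric
open Pool.Agent.H24R2.JP (XX FF HH Om)
open Pool.Agent.H24R2.DZ
open Pool.Agent.Zk17.J
open Pool.Agent.W125.SD (jcount)

theorem iter_diff' {G : ℂ → ℂ} (hG : Differentiable ℂ G) (m : ℕ) : Differentiable ℂ (iteratedDeriv m G) :=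
  (hG.contDiff (n := ((m + 1 : ℕ) : WithTop ℕ∞))).differentiable_iteratedDeriv m
    (by exact_mod_cast Nat.lt_succ_self m)

/-- general form of `W125.SD.sunit_of` -/
theorem unit_gen {η : ℝ} (hB : ∀ (n : ℕ) (p : ℂ) (F : ℂ → ℂ), 1 ≤ n →
    (∀ w ∈ Metric.ball p (3 / 2), DifferentiableAt ℂ F w ∧ F w ≠ 0 ∧ ‖logDeriv F w - n‖ ≤ η * n) →
    (n.factorial : ℝ) * ‖F p‖ ≤ 2 * ‖iteratedDeriv n F p‖)
    {K L H : ℝ} (G : ℂ → ℂ) (hG : Differentiable ℂ G) (hL2 : 2 ≤ L)
    (hLK : K ≤ L / 2 * η)
    (hup : ∀ u : ℂ, ‖u‖ ≤ 450 → ‖G u‖ ≤ Real.exp (K * L) * H)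
    (hlow : ∀ u : ℂ, ‖u‖ ≤ 450 → 11 ≤ u.re → G u ≠ 0 ∧ H ≤ Real.exp (K * L) * ‖G u‖ ∧
      ‖logDeriv G u - ((L / 2 : ℝ) : ℂ)‖ ≤ K)
    (n : ℕ) (hn : (n : ℝ) ≤ 60 * L) (S : Finset ℂ) (hS : ∀ s ∈ S, ‖s - 200‖ ≤ 202) :
    ∑ s ∈ S, (analyticOrderNatAt (iteratedDeriv n G) s : ℝ) ≤
      (302 + 2 * K) / Real.log (204 / 202) * L := by
  obtain ⟨p, hp⟩ : ∃ p : ℂ, p = 200 := ⟨_, rfl⟩
  have hpX := hlow p (by rw [hp]; norm_num) (by rw [hp]; norm_num)
  have hXp : G p ≠ 0 := hpX.1
  have hXp0 : 0 < ‖G p‖ := norm_pos_iff.2 hXp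
  have hfac : (0 : ℝ) < (n.factorial : ℝ) := by exact_mod_cast n.factorial_pos
  -- lower bound at `p`
  have hder : (n.factorial : ℝ) * ‖G p‖ ≤ Real.exp (302 * L) * ‖iteratedDeriv n G p‖ := by
    rcases Nat.eq_zero_or_pos n with rfl | hn1
    · simp only [Nat.factorial_zero, Nat.cast_one, one_mul, iteratedDeriv_zero]
      have : 1 ≤ Real.exp (302 * L) := Real.one_le_exp (by positivity)
      nlinarith
    · have hnr : (1 : ℝ) ≤ n := by exact_mod_cast hn1
      obtain ⟨ρ, hρ⟩ : ∃ ρ : ℝ, ρ = n / (L / 2) := ⟨_, rfl⟩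
      have hρ0 : 0 < ρ := by rw [hρ]; positivity
      have hρ120 : ρ ≤ 120 := by
        rw [hρ, div_le_iff₀ (by positivity)]
        linarith
      have hkey := hB n 0 (fun w => G (p + (ρ : ℂ) * w)) hn1 (by
        intro w hw
        rw [mem_ball_zero_iff] at hw
        have hw1 : ‖(ρ : ℂ) * w‖ ≤ 180 := by
          rw [norm_mul, Complex.norm_real, Real.norm_eq_abs, abs_of_pos hρ0]
          nlinarith [norm_nonneg w]
        have hre : |((ρ : ℂ) * w).re| ≤ 180 := (Complex.abs_re_le_norm _).trans hw1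
        have h1 := hlow (p + (ρ : ℂ) * w) (by
          have := norm_add_le p ((ρ : ℂ) * w)
          have h200 : ‖p‖ = 200 := by rw [hp]; norm_num
          rw [h200] at this
          linarith) (by
          have h200 : p.re = 200 := by rw [hp]; norm_num
          rw [Complex.add_re, h200]
          have := (abs_le.1 hre).1
          linarith)
        have hlin : HasDerivAt (fun w : ℂ => p + (ρ : ℂ) * w) ρ w := by
          simpa using ((hasDerivAt_id w).const_mul (ρ : ℂ)).const_add p
        have hd : HasDerivAt (fun w => G (p + (ρ : ℂ) * w)) (deriv G (p + ρ * w) * ρ) w :=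
          HasDerivAt.comp w (hG _).hasDerivAt hlin
        refine ⟨hd.differentiableAt, h1.1, ?_⟩
        have hld : logDeriv (fun w => G (p + (ρ : ℂ) * w)) w = logDeriv G (p + ρ * w) * ρ := by
          rw [logDeriv_apply, hd.deriv, logDeriv_apply]
          ring
        have hn2 : (n : ℂ) = ((L / 2 : ℝ) : ℂ) * (ρ : ℂ) := by
          rw [← Complex.ofReal_mul, hρ, mul_div_cancel₀ _ (by positivity : (L / 2 : ℝ) ≠ 0)]
          simp
        rw [hld, hn2, ← sub_mul, norm_mul, Complex.norm_real, Real.norm_eq_abs, abs_of_pos hρ0]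
        have h5 : ‖logDeriv G (p + ρ * w) - ((L / 2 : ℝ) : ℂ)‖ * ρ ≤ K * ρ := by
          gcongr
          exact h1.2.2
        refine h5.trans ?_
        have h6 : (n : ℝ) = L / 2 * ρ := by
          rw [hρ, mul_div_cancel₀ _ (by positivity : (L / 2 : ℝ) ≠ 0)]
        rw [h6]
        nlinarith)
      rw [Pool.Agent.H986R2.K4.WinAux.scale hG] at hkey
      simp only [mul_zero, add_zero] at hkey
      rw [norm_mul, norm_pow, Complex.norm_real, Real.norm_eq_abs, abs_of_pos hρ0] at hkey
      refine hkey.trans ?_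
      rw [← mul_assoc]
      gcongr
      have h120 : (120 : ℝ) ≤ Real.exp 5 := by
        have h1 := Real.exp_one_gt_d9
        have h2 : Real.exp 5 = Real.exp 1 ^ 5 := by rw [← Real.exp_nat_mul]; norm_num
        rw [h2]
        calc (120 : ℝ) ≤ 2.7 ^ 5 := by norm_num
          _ ≤ Real.exp 1 ^ 5 := by gcongr; linarith
      have h2e : (2 : ℝ) ≤ Real.exp 1 := by
        have h1 := Real.exp_one_gt_d9
        linarith
      calc 2 * ρ ^ n ≤ Real.exp 1 * (Real.exp 5) ^ n := by
            gcongr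
            exact hρ120.trans h120
        _ = Real.exp (1 + n * 5) := by rw [← Real.exp_nat_mul, ← Real.exp_add]
        _ ≤ Real.exp (302 * L) := by
            apply Real.exp_le_exp.2
            linarith
  have hne : iteratedDeriv n G p ≠ 0 := by
    intro h0
    rw [h0, norm_zero, mul_zero] at hder
    have : 0 < (n.factorial : ℝ) * ‖G p‖ := by positivity
    linarith
  have hdn : Differentiable ℂ (iteratedDeriv n G) := iter_diff' hG n
  have hbound : ∀ z, ‖z - p‖ ≤ 204 → ‖iteratedDeriv n G z‖ ≤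
      Real.exp ((302 + 2 * K) * L) * ‖iteratedDeriv n G p‖ := by
    intro z hz
    have hc := Complex.norm_iteratedDeriv_le_of_forall_mem_sphere_norm_le n (c := z) (R := 1)
      (C := Real.exp (K * L) * H) (f := G) one_pos hG.diffContOnCl (by
        intro w hw
        rw [mem_sphere_iff_norm] at hw
        refine hup _ ?_
        have hw3 : w = (w - z) + (z - p) + 200 := by rw [hp]; ring
        rw [hw3]
        have h1 := norm_add_le ((w - z) + (z - p)) (200 : ℂ)
        have h2 := norm_add_le (w - z) (z - p)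
        have h200 : ‖(200 : ℂ)‖ = 200 := by norm_num
        rw [h200] at h1
        linarith)
    rw [one_pow, div_one] at hc
    refine hc.trans ?_
    calc (n.factorial : ℝ) * (Real.exp (K * L) * H)
        ≤ (n.factorial : ℝ) * (Real.exp (K * L) * (Real.exp (K * L) * ‖G p‖)) := by
          gcongr
          exact hpX.2.1
      _ = Real.exp (2 * K * L) * ((n.factorial : ℝ) * ‖G p‖) := by
          have : Real.exp (2 * K * L) = Real.exp (K * L) * Real.exp (K * L) := by
            rw [← Real.exp_add]; congr 1; ring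
          rw [this]; ring
      _ ≤ Real.exp (2 * K * L) * (Real.exp (302 * L) * ‖iteratedDeriv n G p‖) := by
          gcongr
      _ = _ := by
          rw [← mul_assoc, ← Real.exp_add]
          congr 2
          ring
  have := jcount hdn (c := p) (r := 202) (R := 204) (by norm_num) (by norm_num) hne hbound S (by
    intro s hs
    rw [hp]
    exact hS s hs)
  refine this.trans (le_of_eq ?_)
  ring

/-- the order of vanishing in an affine coordinate -/
theorem order_affine {f : ℂ → ℂ} (c r : ℂ) (hr : r ≠ 0) (v : ℂ) :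
    analyticOrderNatAt (fun z => f (c + r * z)) v = analyticOrderNatAt f (c + r * v) := by
  unfold analyticOrderNatAt
  congr 1
  have h1 : AnalyticAt ℂ (fun z : ℂ => c + r * z) v := by fun_prop
  have h2 : deriv (fun z : ℂ => c + r * z) v ≠ 0 := by
    have : HasDerivAt (fun z : ℂ => c + r * z) r v := by
      simpa using ((hasDerivAt_id v).const_mul r).const_add c
    rw [this.deriv]
    exact hr
  have h3 := analyticOrderAt_comp_of_deriv_ne_zero (f := f) (g := fun z : ℂ => c + r * z) h1 h2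
  exact h3

theorem zv_eq (t : ℝ) (v : ℂ) : zv t v = -(t : ℂ) ^ 2 + (2 * I * t) * v := rfl

/-- zeros of `FF^(n)` in unit windows -/
theorem unitF (h : SB2) : ∃ C T0 : ℝ, 0 < C ∧ 2 ≤ T0 ∧ ∀ (t : ℝ) (n : ℕ), T0 ≤ t → (n : ℝ) ≤ 60 * Real.log t →
    ∀ S : Finset ℂ, (∀ v ∈ S, |v.re| ≤ 1 ∧ |v.im| ≤ 1) →
    ∑ v ∈ S, (analyticOrderNatAt (iteratedDeriv n FF) (zv t v) : ℝ) ≤ C * Real.log t := by
  obtain ⟨η, hη, hB⟩ := h
  obtain ⟨K0, T0, hT0, hX⟩ := xb 500
  obtain ⟨K, hKdef⟩ : ∃ K : ℝ, K = |K0| + 1801 := ⟨_, rfl⟩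
  have hK1 : 1 ≤ K := by
    have := abs_nonneg K0
    linarith
  have hKK : |K0| + 1801 ≤ K := hKdef.ge
  have hlr : 0 < Real.log (204 / 202) := Real.log_pos (by norm_num)
  refine ⟨(302 + 2 * K) / Real.log (204 / 202), max (max T0 (10 ^ 6 * K)) (Real.exp (2 * K / η + 2)), by positivity,
    ?_, ?_⟩
  · refine le_trans ?_ (le_max_right _ _)
    have h1 : (2 : ℝ) ≤ 2 * K / η + 2 := by
      have : 0 ≤ 2 * K / η := by positivity
      linarith
    have h2 := Real.add_one_le_exp (2 * K / η + 2)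
    linarith
  intro t n ht hn S hS
  have htT : T0 ≤ t := ((le_max_left _ _).trans (le_max_left _ _)).trans ht
  have ht6 : 10 ^ 6 * K ≤ t := ((le_max_right _ _).trans (le_max_left _ _)).trans ht
  have ht6' : (10 : ℝ) ^ 6 ≤ t := by nlinarith
  have ht1 : 1 ≤ t := hT0.trans htT
  have htpos : 0 < t := by linarith
  have hlog : 2 * K / η + 2 ≤ Real.log t := by
    rw [Real.le_log_iff_exp_le htpos]
    exact (le_max_right _ _).trans ht
  have hL0 : 0 ≤ 2 * K / η := by positivity
  obtain ⟨L, hLdef⟩ : ∃ L : ℝ, L = Real.log t := ⟨_, rfl⟩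
  rw [← hLdef] at hlog hn ⊢
  have hL2 : 2 ≤ L := by linarith
  have hLK : K ≤ L / 2 * η := by
    have h1 : 2 * K / η ≤ L := by linarith
    rw [div_le_iff₀ hη] at h1
    linarith
  have hLt : L ≤ t := by
    rw [hLdef]
    have := Real.log_le_sub_one_of_pos htpos
    linarith
  -- the shifted point
  have hu : ∀ v : ℂ, ‖v‖ ≤ 450 → ‖(wv t v - I * t) - v‖ ≤ 1 := by
    intro v hv
    have h1 := norm_wv_sub htpos v
    have h2 : wv t v - (I * t + v) = (wv t v - I * t) - v := by ring
    rw [h2] at h1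
    refine h1.trans ?_
    rw [div_le_one htpos]
    have : ‖v‖ ^ 2 ≤ 450 ^ 2 := pow_le_pow_left₀ (norm_nonneg _) hv 2
    linarith
  have hw : ∀ v : ℂ, I * t + (wv t v - I * t) = wv t v := fun v => by ring
  have hG : Differentiable ℂ (fun v : ℂ => FF (zv t v)) := by
    refine FF_diff.comp ?_
    unfold zv
    fun_prop
  have hmain := unit_gen hB (K := K) (L := L) (H := ‖HH (I * t)‖) (fun v : ℂ => FF (zv t v)) hG hL2 hLK
    (by
      intro v hv
      have h1 := hu v hv
      have h2 : ‖wv t v - I * t‖ ≤ 500 := by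
        have := norm_add_le ((wv t v - I * t) - v) v
        rw [sub_add_cancel] at this
        linarith
      have h3 := (hX t (wv t v - I * t) htT h2).1
      rw [hw, ← FF_zv htpos.ne'] at h3
      refine h3.trans ?_
      have : K0 ≤ K := by have := le_abs_self K0; linarith
      rw [← hLdef]
      gcongr) (by
      intro v hv hre
      have h1 := hu v hv
      have h2 : ‖wv t v - I * t‖ ≤ 500 := by
        have := norm_add_le ((wv t v - I * t) - v) v
        rw [sub_add_cancel] at this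
        linarith
      have h4 : 10 ≤ (wv t v - I * t).re := by
        have h5 := (abs_le.1 ((Complex.abs_re_le_norm _).trans h1)).1
        rw [Complex.sub_re (wv t v - I * t) v] at h5
        linarith
      obtain ⟨h5, h6, h7⟩ := (hX t (wv t v - I * t) htT h2).2 h4
      rw [hw] at h5 h6 h7
      rw [← hLdef] at h6 h7
      refine ⟨by show FF (zv t v) ≠ 0; rw [FF_zv htpos.ne']; exact h5, ?_, ?_⟩
      · show ‖HH (I * t)‖ ≤ Real.exp (K * L) * ‖FF (zv t v)‖
        rw [FF_zv htpos.ne']
        have h8 : ‖HH (I * t)‖ ≤ Real.exp (K0 * L) * ‖XX (wv t v)‖ := by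
          calc ‖HH (I * t)‖ = Real.exp (K0 * L) * (Real.exp (-(K0 * L)) * ‖HH (I * t)‖) := by
                rw [← mul_assoc, ← Real.exp_add, add_neg_cancel, Real.exp_zero, one_mul]
            _ ≤ Real.exp (K0 * L) * ‖XX (wv t v)‖ := by gcongr
        refine h8.trans ?_
        have : K0 ≤ K := by have := le_abs_self K0; linarith
        gcongr
      · have h4v : 4 * ‖v‖ ≤ t := by linarith
        rw [logDeriv_FF_zv htpos h4v]
        obtain ⟨q, hq⟩ : ∃ q : ℂ, q = I * t / wv t v := ⟨_, rfl⟩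
        have hq1 : ‖q - 1‖ ≤ 1800 / t := by
          rw [hq]
          refine (norm_div_sub htpos h4v).trans ?_
          gcongr
          linarith
        obtain ⟨l, hl⟩ : ∃ l : ℂ, l = logDeriv XX (wv t v) := ⟨_, rfl⟩
        rw [← hq, ← hl]
        rw [← hl] at h7
        have h9 : ‖l‖ ≤ |K0| + L / 2 := by
          have h10 := norm_add_le (l - ((L / 2 : ℝ) : ℂ)) ((L / 2 : ℝ) : ℂ)
          rw [sub_add_cancel, Complex.norm_real, Real.norm_of_nonneg (by linarith : (0 : ℝ) ≤ L / 2)] at h10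
          have := le_abs_self K0
          linarith
        have h11 : q * l - ((L / 2 : ℝ) : ℂ) = (q - 1) * l + (l - ((L / 2 : ℝ) : ℂ)) := by ring
        rw [h11]
        have h12 := norm_add_le ((q - 1) * l) (l - ((L / 2 : ℝ) : ℂ))
        rw [norm_mul] at h12
        have h13 : ‖q - 1‖ * ‖l‖ ≤ 1800 / t * (|K0| + L / 2) := by
          apply mul_le_mul hq1 h9 (norm_nonneg _) (by positivity)
        have h14 : 1800 / t * (|K0| + L / 2) ≤ 1801 := by
          rw [div_mul_eq_mul_div, div_le_iff₀ htpos]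
          have := abs_nonneg K0
          nlinarith
        have := le_abs_self K0
        linarith)
    n hn S (by
      intro s hs
      obtain ⟨h1, h2⟩ := hS s hs
      have h4 : ‖s - 200‖ ≤ |(s - 200).re| + |(s - 200).im| := Complex.norm_le_abs_re_add_abs_im _
      have h5 : (s - 200).re = s.re - 200 := by simp
      have h6 : (s - 200).im = s.im := by simp
      rw [h5, h6] at h4
      have h7 := abs_le.1 h1
      have h8 : |s.re - 200| ≤ 201 := by rw [abs_le]; constructor <;> linarith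
      linarith)
  refine le_trans (le_of_eq ?_) hmain
  refine Finset.sum_congr rfl fun v _ => ?_
  have hr : (2 * I * t : ℂ) ≠ 0 := by
    have : (t : ℂ) ≠ 0 := by exact_mod_cast htpos.ne'
    simp [this]
  have h20 : iteratedDeriv n (fun v : ℂ => FF (zv t v)) =
      fun v => (2 * I * t) ^ n * iteratedDeriv n FF (-(t : ℂ) ^ 2 + (2 * I * t) * v) := by
    funext v
    exact Pool.Agent.H986R2.K4.WinAux.scale FF_diff (-(t : ℂ) ^ 2) (2 * I * t) n v
  rw [h20]
  have h21 : Differentiable ℂ (iteratedDeriv n FF) := iter_diff' FF_diff n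
  have h22 : Differentiable ℂ (fun v : ℂ => iteratedDeriv n FF (-(t : ℂ) ^ 2 + (2 * I * t) * v)) :=
    h21.comp (by fun_prop)
  have h23 := Pool.Agent.W125.SD.order_const_mul (pow_ne_zero n hr) v (h22.analyticAt v)
  rw [h23, order_affine _ _ hr]
  rfl

end Pool.Agent.Zk5.JD
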